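import Pool.Agent.Helper475.FinalProofs

open scoped BigOperators
open Module H475

/-- For every prime `n ≥ 19` with a primitive cube root of unity `ω` in `ZMod n`, the third
syzygy space `K_{3,1}(C, K_C)` of the canonical graph curve `C` of the honeycomb torus with `2 n`
vertices, which has genus `g = n + 1`, has the dimension
`b_{3,1}(g) = n (n - 1) (n - 3) (n - 6) / 8` of the general curve and satisfies the
Hilbert-Mumford criterion for stability under `SL_g`. -/
theorem Pool.Agent.Results.MP_aff493_ag.HoneycombP3.result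
    (n : ℕ) [Fact n.Prime] (hn : 19 ≤ n) (ω : ZMod n) (hω : ω ^ 2 + ω + 1 = 0) :
    finrank ℂ (UV n) = n + 1 ∧
    8 * (finrank ℂ (Syz ω 3) : ℤ) = n * (n - 1) * (n - 3) * (n - 6) ∧
    HMStable (Syz ω 3) := by
  refine ⟨finrank_UV n, ?_, ?_⟩
  · rw [Syz_eq ω hω 2, finrank_K0F]
    exact (finrank_K0 hn ω hω).1
  · exact HMStable_of ω hω 2 (fun b w hw hw0 => stable_three hn ω hω b w hw hw0)
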